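import Pool.Agent.PET.Main

set_option autoImplicit false

namespace Pool.Agent.Results.MP_fd0276_co.AlmostAll

/-- Almost all cubic graphs of girth at least `g` (any fixed `g ≥ 4`) have a homomorphism to the
Petersen graph. -/
theorem result (g : ℕ) (hg : 4 ≤ g) (ε : ℝ) (hε : 0 < ε) :
    ∃ n₀ : ℕ, ∀ n : ℕ, n₀ ≤ n → Even n →
      0 < {G : SimpleGraph (Fin n) |
          (∀ v, (G.neighborSet v).ncard = 3) ∧ (g : ℕ∞) ≤ G.egirth}.ncard ∧
      (1 - ε) * ({G : SimpleGraph (Fin n) |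
          (∀ v, (G.neighborSet v).ncard = 3) ∧ (g : ℕ∞) ≤ G.egirth}.ncard : ℝ)
        ≤ ({G : SimpleGraph (Fin n) |
          (∀ v, (G.neighborSet v).ncard = 3) ∧ (g : ℕ∞) ≤ G.egirth ∧
            Nonempty (G →g SimpleGraph.fromRel
              (fun s t : {s : Finset (Fin 5) // s.card = 2} => Disjoint s.1 t.1))}.ncard : ℝ) :=
  Pool.Agent.PET.main g hg ε hε

end Pool.Agent.Results.MP_fd0276_co.AlmostAll
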